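import Pool.Agent.Helper50.HY.Stmts

/-!
# Row TRO: the trial orbital of the hydrogen atom
-/

set_option autoImplicit false

namespace Pool.Agent.Helper85.HY

open MeasureTheory Filter Set Topology
open Pool.Agent.Helper95 Pool.Agent.Helper95.PW Pool.Agent.Helper95.LN Pool.Agent.Helper50.HY

/-! ### radial integrals -/

abbrev E3 := EuclideanSpace ℝ (Fin 3)

lemma nr_ofLp (x : E3) : nr (WithLp.ofLp x) = ‖x‖ := by
  rw [EuclideanSpace.norm_eq]
  simp [nr, Fin.sum_univ_three, sq_abs]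

/-- three times the volume of the unit ball -/
noncomputable def vol3 : ℝ := 3 * (volume : Measure E3).real (Metric.ball 0 1)

lemma vol3_pos : 0 < vol3 := by
  unfold vol3
  have h : 0 < (volume : Measure E3).real (Metric.ball 0 1) := by
    rw [Measure.real]
    exact ENNReal.toReal_pos (Metric.measure_ball_pos _ _ one_pos).ne'
      (measure_ball_lt_top).ne
  positivity

lemma int_nr (g : ℝ → ℝ) : ∫ y : R3, g (nr y) = vol3 * ∫ r in Ioi (0 : ℝ), r ^ 2 * g r := by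
  have h1 : ∫ y : R3, g (nr y) = ∫ x : E3, g ‖x‖ := by
    rw [← (PiLp.volume_preserving_ofLp (Fin 3)).integral_comp
      (MeasurableEquiv.toLp 2 (Fin 3 → ℝ)).symm.measurableEmbedding (fun y => g (nr y))]
    simp only [nr_ofLp]
  rw [h1, integral_fun_norm_addHaar volume g]
  simp only [finrank_euclideanSpace, Fintype.card_fin, smul_eq_mul, nsmul_eq_mul]
  unfold vol3
  push_cast
  ring_nf

lemma ig_pow (k : ℕ) : IntegrableOn (fun r : ℝ => r ^ k * Real.exp (-r)) (Ioi 0) := by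
  have h := Real.GammaIntegral_convergent (s := (k : ℝ) + 1) (by positivity)
  refine h.congr_fun (fun r hr => ?_) measurableSet_Ioi
  simp only
  rw [add_sub_cancel_right, Real.rpow_natCast, mul_comm]

lemma int_pow (k : ℕ) : ∫ r in Ioi (0 : ℝ), r ^ k * Real.exp (-r) = (k.factorial : ℝ) := by
  rw [← Real.Gamma_nat_eq_factorial, Real.Gamma_eq_integral (by positivity)]
  refine setIntegral_congr_fun measurableSet_Ioi fun r _ => ?_
  show r ^ k * Real.exp (-r) = Real.exp (-r) * r ^ ((k : ℝ) + 1 - 1)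
  rw [add_sub_cancel_right, Real.rpow_natCast, mul_comm]

/-! ### the functions -/

/-- a smooth version of the square root -/
noncomputable def rho (s t : ℝ) : ℝ := Real.sqrt (Real.sqrt (t ^ 2 + s ^ 2))

/-- the trial functions -/
noncomputable def qm (s : ℝ) (t : ℝ) : ℝ :=
  Real.exp (-(rho s t / 2)) * Real.smoothTransition (2 - t * s)

/-- the derivatives -/
noncomputable def Dm (s : ℝ) (t : ℝ) : ℝ :=
  Real.exp (-(rho s t / 2)) * (-(t / (2 * rho s t ^ 3) / 2)) * Real.smoothTransition (2 - t * s) +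
    Real.exp (-(rho s t / 2)) * (deriv Real.smoothTransition (2 - t * s) * (-s))

lemma in_pos {s : ℝ} (hs : 0 < s) (t : ℝ) : 0 < t ^ 2 + s ^ 2 := by positivity

lemma rho_pos {s : ℝ} (hs : 0 < s) (t : ℝ) : 0 < rho s t :=
  Real.sqrt_pos.2 (Real.sqrt_pos.2 (in_pos hs t))

lemma rho_sq (s t : ℝ) : rho s t ^ 2 = Real.sqrt (t ^ 2 + s ^ 2) :=
  Real.sq_sqrt (Real.sqrt_nonneg _)

lemma rho_smooth {s : ℝ} (hs : 0 < s) : ContDiff ℝ (⊤ : ℕ∞) (rho s) := by
  unfold rho
  refine ContDiff.sqrt (ContDiff.sqrt (by fun_prop) fun t => (in_pos hs t).ne') fun t => ?_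
  exact (Real.sqrt_pos.2 (in_pos hs t)).ne'

lemma rho_deriv {s : ℝ} (hs : 0 < s) (t : ℝ) :
    HasDerivAt (rho s) (t / (2 * rho s t ^ 3)) t := by
  have h1 : HasDerivAt (fun t : ℝ => t ^ 2 + s ^ 2) (2 * t) t := by
    simpa using (hasDerivAt_pow 2 t).add_const (s ^ 2)
  have h2 := (h1.sqrt (in_pos hs t).ne').sqrt (Real.sqrt_pos.2 (in_pos hs t)).ne'
  refine h2.congr_deriv ?_
  have hp := rho_pos hs t
  show 2 * t / (2 * Real.sqrt (t ^ 2 + s ^ 2)) / (2 * rho s t) = _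
  rw [← rho_sq]
  field_simp

lemma le_rho (s r : ℝ) : r ≤ rho s (r ^ 2) := by
  unfold rho
  apply Real.le_sqrt_of_sq_le
  apply Real.le_sqrt_of_sq_le
  nlinarith [sq_nonneg s]

lemma qm_smooth {s : ℝ} (hs : 0 < s) : ContDiff ℝ (⊤ : ℕ∞) (qm s) := by
  unfold qm
  exact ((rho_smooth hs).div_const 2).neg.exp.mul
    (Real.smoothTransition.contDiff.comp (by fun_prop))

lemma st_diff : Differentiable ℝ Real.smoothTransition :=
  (Real.smoothTransition.contDiff (n := (1 : ℕ∞))).differentiable (by simp)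

lemma qm_deriv {s : ℝ} (hs : 0 < s) (t : ℝ) : HasDerivAt (qm s) (Dm s t) t := by
  have h1 : HasDerivAt (fun t => Real.exp (-(rho s t / 2)))
      (Real.exp (-(rho s t / 2)) * (-(t / (2 * rho s t ^ 3) / 2))) t :=
    ((rho_deriv hs t).div_const 2).neg.exp
  have h2 : HasDerivAt (fun t => Real.smoothTransition (2 - t * s))
      (deriv Real.smoothTransition (2 - t * s) * (-s)) t := by
    have h3 : HasDerivAt (fun t : ℝ => 2 - t * s) (-s) t := by
      simpa using ((hasDerivAt_id t).mul_const s).const_sub 2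
    exact (st_diff _).hasDerivAt.comp t h3
  exact h1.mul h2

lemma st_bound : ∃ C : ℝ, 0 ≤ C ∧ ∀ x, |deriv Real.smoothTransition x| ≤ C := by
  have hc : Continuous (deriv Real.smoothTransition) :=
    (Real.smoothTransition.contDiff (n := (1 : ℕ∞))).continuous_deriv (by simp)
  obtain ⟨C, hC⟩ := (isCompact_Icc (a := (0 : ℝ)) (b := 1)).exists_bound_of_continuousOn
    hc.continuousOn
  refine ⟨C, (abs_nonneg _).trans (hC 0 (by simp)), fun x => ?_⟩
  have hC0 : 0 ≤ C := (abs_nonneg _).trans (hC 0 (by simp))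
  by_cases h0 : x < 0
  · have : deriv Real.smoothTransition x = 0 := by
      have e : Real.smoothTransition =ᶠ[𝓝 x] fun _ => 0 := by
        filter_upwards [Iio_mem_nhds h0] with y hy
        exact Real.smoothTransition.zero_of_nonpos (le_of_lt hy)
      rw [e.deriv_eq]; simp
    rw [this]; simpa using hC0
  · by_cases h1 : 1 < x
    · have : deriv Real.smoothTransition x = 0 := by
        have e : Real.smoothTransition =ᶠ[𝓝 x] fun _ => 1 := by
          filter_upwards [Ioi_mem_nhds h1] with y hy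
          exact Real.smoothTransition.one_of_one_le (le_of_lt hy)
        rw [e.deriv_eq]; simp
      rw [this]; simpa using hC0
    · exact hC x ⟨not_lt.1 h0, not_lt.1 h1⟩

/-! ### the derivatives on space -/

lemma nr_sq (y : R3) : nr y ^ 2 = y 0 ^ 2 + y 1 ^ 2 + y 2 ^ 2 :=
  Real.sq_sqrt (by positivity)

lemma pd_q (q : ℝ → ℝ) (D : ℝ) (i : Fin 3) (y : R3) (h : HasDerivAt q D (nr y ^ 2)) :
    pd i (fun y => q (nr y ^ 2)) y = D * (2 * y i) := by
  have h1 : ∀ j : Fin 3, HasFDerivAt (fun y : R3 => y j ^ 2)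
      ((2 * y j) • ContinuousLinearMap.proj (R := ℝ) (φ := fun _ : Fin 3 => ℝ) j) y := by
    intro j
    have := (hasDerivAt_pow 2 (y j)).comp_hasFDerivAt y (hasFDerivAt_apply (𝕜 := ℝ) j y)
    exact this.congr_fderiv (by ext v; simp)
  have h2 : HasFDerivAt (fun y : R3 => nr y ^ 2)
      ((2 * y 0) • ContinuousLinearMap.proj (R := ℝ) (φ := fun _ : Fin 3 => ℝ) 0 +
        (2 * y 1) • ContinuousLinearMap.proj (R := ℝ) (φ := fun _ : Fin 3 => ℝ) 1 +
        (2 * y 2) • ContinuousLinearMap.proj (R := ℝ) (φ := fun _ : Fin 3 => ℝ) 2) y := by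
    have e : (fun y : R3 => nr y ^ 2) = fun y => y 0 ^ 2 + y 1 ^ 2 + y 2 ^ 2 := funext nr_sq
    rw [e]
    exact ((h1 0).add (h1 1)).add (h1 2)
  have h3 := h.comp_hasFDerivAt y h2
  unfold pd
  have e : (fun y : R3 => q (nr y ^ 2)) = q ∘ fun y => nr y ^ 2 := rfl
  rw [e, h3.fderiv]
  fin_cases i <;> simp

/-! ### limits -/

lemma rho_lim (t : ℝ) (ht : 0 ≤ t) (s : ℕ → ℝ) (hs : Tendsto s atTop (𝓝 0)) :
    Tendsto (fun m => rho (s m) (t ^ 2)) atTop (𝓝 t) := by
  have h1 : Continuous fun s : ℝ => rho s (t ^ 2) := by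
    unfold rho
    fun_prop
  have h2 := (h1.tendsto 0).comp hs
  have e : rho 0 (t ^ 2) = t := by
    unfold rho
    rw [zero_pow two_ne_zero, add_zero, Real.sqrt_sq (by positivity), Real.sqrt_sq ht]
  rw [e] at h2
  exact h2

lemma qm_lim (r : ℝ) (hr : 0 ≤ r) (s : ℕ → ℝ) (hs : Tendsto s atTop (𝓝 0)) :
    Tendsto (fun m => qm (s m) (r ^ 2)) atTop (𝓝 (Real.exp (-(r / 2)))) := by
  have h1 := rho_lim r hr s hs
  have h2 : Tendsto (fun m => Real.smoothTransition (2 - r ^ 2 * s m)) atTop (𝓝 1) := by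
    have h3 : Tendsto (fun m => 2 - r ^ 2 * s m) atTop (𝓝 (2 - r ^ 2 * 0)) :=
      (hs.const_mul _).const_sub _
    have h4 := (Real.smoothTransition.continuous.tendsto _).comp h3
    rw [Real.smoothTransition.one_of_one_le (by norm_num)] at h4
    exact h4
  have h5 := ((h1.div_const 2).neg.rexp).mul h2
  rw [mul_one] at h5
  exact h5

lemma Dm_lim (r : ℝ) (hr : 0 < r) (s : ℕ → ℝ) (hs : Tendsto s atTop (𝓝 0)) :
    Tendsto (fun m => 2 * r * Dm (s m) (r ^ 2)) atTop (𝓝 (-(1 / 2 * Real.exp (-(r / 2))))) := by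
  have h1 := rho_lim r hr.le s hs
  obtain ⟨C, hC0, hC⟩ := st_bound
  have h2 : Tendsto (fun m => Real.smoothTransition (2 - r ^ 2 * s m)) atTop (𝓝 1) := by
    have h3 : Tendsto (fun m => 2 - r ^ 2 * s m) atTop (𝓝 (2 - r ^ 2 * 0)) :=
      (hs.const_mul _).const_sub _
    have h4 := (Real.smoothTransition.continuous.tendsto _).comp h3
    rw [Real.smoothTransition.one_of_one_le (by norm_num)] at h4
    exact h4
  have h6 : Tendsto (fun m => deriv Real.smoothTransition (2 - r ^ 2 * s m) * (-(s m))) atTop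
      (𝓝 0) := by
    refine squeeze_zero_norm (a := fun m => C * |s m|) (fun m => ?_) ?_
    · rw [norm_mul, norm_neg]
      exact mul_le_mul_of_nonneg_right (hC _) (abs_nonneg _)
    · simpa using (hs.abs.const_mul C)
  have h7 : Tendsto (fun m => -(r ^ 2 / (2 * rho (s m) (r ^ 2) ^ 3) / 2)) atTop
      (𝓝 (-(r ^ 2 / (2 * r ^ 3) / 2))) :=
    ((tendsto_const_nhds.div ((h1.pow 3).const_mul 2) (by positivity)).div_const 2).neg
  have h8 := (h1.div_const 2).neg.rexp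
  have h9 := (((h8.mul h7).mul h2).add (h8.mul h6)).const_mul (2 * r)
  have e : 2 * r * (Real.exp (-(r / 2)) * -(r ^ 2 / (2 * r ^ 3) / 2) * 1 +
      Real.exp (-(r / 2)) * 0) = -(1 / 2 * Real.exp (-(r / 2))) := by
    field_simp
    ring
  rw [e] at h9
  exact h9

/-! ### bounds -/

lemma exp_half (r : ℝ) : Real.exp (-(r / 2)) ^ 2 = Real.exp (-r) := by
  rw [← Real.exp_nat_mul]
  congr 1
  push_cast
  ring

lemma exp_rho (s r : ℝ) : Real.exp (-(rho s (r ^ 2) / 2)) ≤ Real.exp (-(r / 2)) := by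
  apply Real.exp_le_exp.2
  have := le_rho s r
  linarith

lemma qm_sq_le (s r : ℝ) : qm s (r ^ 2) ^ 2 ≤ Real.exp (-r) := by
  rw [← exp_half]
  unfold qm
  have h1 := Real.smoothTransition.nonneg (2 - r ^ 2 * s)
  have h2 := Real.smoothTransition.le_one (2 - r ^ 2 * s)
  have h3 := exp_rho s r
  have h4 := Real.exp_pos (-(rho s (r ^ 2) / 2))
  refine pow_le_pow_left₀ (by positivity) ?_ 2
  calc _ ≤ Real.exp (-(rho s (r ^ 2) / 2)) * 1 := mul_le_mul_of_nonneg_left h2 h4.le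
    _ ≤ _ := by rw [mul_one]; exact h3

lemma Dm_le {C : ℝ} (hC : ∀ x, |deriv Real.smoothTransition x| ≤ C) {s r : ℝ} (hs : 0 < s)
    (hs1 : s ≤ 1) (hr : 0 < r) :
    |2 * r * Dm s (r ^ 2)| ≤ Real.exp (-(r / 2)) * (1 / 2 + 2 * C * r) := by
  have h1 := Real.smoothTransition.nonneg (2 - r ^ 2 * s)
  have h2 := Real.smoothTransition.le_one (2 - r ^ 2 * s)
  have h3 := exp_rho s r
  have h4 := Real.exp_pos (-(rho s (r ^ 2) / 2))
  have h5 := rho_pos hs (r ^ 2)
  have h6 := le_rho s r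
  have hC0 : 0 ≤ C := (abs_nonneg _).trans (hC 0)
  set ρ := rho s (r ^ 2) with hρ
  have h7 : r ^ 3 / ρ ^ 3 ≤ 1 := by
    rw [div_le_one (by positivity)]
    exact pow_le_pow_left₀ hr.le h6 3
  have e : 2 * r * Dm s (r ^ 2) = Real.exp (-(ρ / 2)) *
      (-(r ^ 3 / ρ ^ 3 / 2 * Real.smoothTransition (2 - r ^ 2 * s)) -
        2 * r * s * deriv Real.smoothTransition (2 - r ^ 2 * s)) := by
    unfold Dm
    rw [← hρ]
    field_simp
    ring
  rw [e, abs_mul, abs_of_pos h4]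
  refine mul_le_mul h3 ?_ (abs_nonneg _) (Real.exp_pos _).le
  refine (abs_sub _ _).trans ?_
  rw [abs_neg, abs_of_nonneg (by positivity : 0 ≤ r ^ 3 / ρ ^ 3 / 2 *
    Real.smoothTransition (2 - r ^ 2 * s)), abs_mul,
    abs_of_nonneg (by positivity : 0 ≤ 2 * r * s)]
  refine add_le_add ?_ ?_
  · have : r ^ 3 / ρ ^ 3 / 2 * Real.smoothTransition (2 - r ^ 2 * s) ≤ r ^ 3 / ρ ^ 3 / 2 * 1 :=
      mul_le_mul_of_nonneg_left h2 (by positivity)
    linarith
  · calc 2 * r * s * |deriv Real.smoothTransition (2 - r ^ 2 * s)| ≤ 2 * r * 1 * C := by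
          refine mul_le_mul ?_ (hC _) (abs_nonneg _) (by positivity)
          exact mul_le_mul_of_nonneg_left hs1 (by positivity)
      _ = _ := by ring

/-! ### the three integrals -/

lemma N_lim (s : ℕ → ℝ) (hs0 : ∀ m, 0 < s m) (hs : Tendsto s atTop (𝓝 0)) :
    Tendsto (fun m => ∫ r in Ioi (0 : ℝ), r ^ 2 * qm (s m) (r ^ 2) ^ 2) atTop (𝓝 2) := by
  have h := tendsto_integral_of_dominated_convergence (μ := volume.restrict (Ioi (0 : ℝ)))
    (F := fun m r => r ^ 2 * qm (s m) (r ^ 2) ^ 2) (f := fun r => r ^ 2 * Real.exp (-r))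
    (fun r => r ^ 2 * Real.exp (-r)) ?_ (ig_pow 2) ?_ ?_
  · rw [int_pow 2] at h
    simpa using h
  · intro m
    have := (qm_smooth (hs0 m)).continuous
    exact (by fun_prop : Continuous fun r : ℝ => r ^ 2 * qm (s m) (r ^ 2) ^ 2).aestronglyMeasurable
  · intro m
    refine Eventually.of_forall fun r => ?_
    rw [Real.norm_of_nonneg (by positivity)]
    exact mul_le_mul_of_nonneg_left (qm_sq_le _ _) (sq_nonneg _)
  · filter_upwards [ae_restrict_mem measurableSet_Ioi] with r hr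
    have := ((qm_lim r (le_of_lt hr) s hs).pow 2).const_mul (r ^ 2)
    rw [exp_half] at this
    exact this

lemma P_lim (s : ℕ → ℝ) (hs0 : ∀ m, 0 < s m) (hs : Tendsto s atTop (𝓝 0)) :
    Tendsto (fun m => ∫ r in Ioi (0 : ℝ), r ^ 2 * (qm (s m) (r ^ 2) ^ 2 / r)) atTop (𝓝 1) := by
  have h := tendsto_integral_of_dominated_convergence (μ := volume.restrict (Ioi (0 : ℝ)))
    (F := fun m r => r ^ 2 * (qm (s m) (r ^ 2) ^ 2 / r)) (f := fun r => r ^ 1 * Real.exp (-r))
    (fun r => r ^ 1 * Real.exp (-r)) ?_ (ig_pow 1) ?_ ?_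
  · rw [int_pow 1] at h
    simpa using h
  · intro m
    have h1 := (qm_smooth (hs0 m)).continuous.measurable
    exact (by fun_prop : Measurable fun r : ℝ =>
      r ^ 2 * (qm (s m) (r ^ 2) ^ 2 / r)).aestronglyMeasurable
  · intro m
    filter_upwards [ae_restrict_mem measurableSet_Ioi] with r hr
    have hr0 : 0 < r := hr
    rw [Real.norm_of_nonneg (by positivity)]
    have e : r ^ 2 * (qm (s m) (r ^ 2) ^ 2 / r) = r ^ 1 * qm (s m) (r ^ 2) ^ 2 := by
      field_simp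
    rw [e]
    exact mul_le_mul_of_nonneg_left (qm_sq_le _ _) (by positivity)
  · filter_upwards [ae_restrict_mem measurableSet_Ioi] with r hr
    have hr0 : 0 < r := hr
    have := ((qm_lim r hr0.le s hs).pow 2).const_mul (r ^ 1)
    rw [exp_half] at this
    refine this.congr fun m => ?_
    field_simp

lemma K_lim (s : ℕ → ℝ) (hs0 : ∀ m, 0 < s m) (hs1 : ∀ m, s m ≤ 1) (hs : Tendsto s atTop (𝓝 0)) :
    Tendsto (fun m => ∫ r in Ioi (0 : ℝ), r ^ 2 * (2 * r * Dm (s m) (r ^ 2)) ^ 2) atTop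
      (𝓝 (1 / 2)) := by
  obtain ⟨C, hC0, hC⟩ := st_bound
  have h := tendsto_integral_of_dominated_convergence (μ := volume.restrict (Ioi (0 : ℝ)))
    (F := fun m r => r ^ 2 * (2 * r * Dm (s m) (r ^ 2)) ^ 2)
    (f := fun r => 1 / 4 * (r ^ 2 * Real.exp (-r)))
    (fun r => 1 / 4 * (r ^ 2 * Real.exp (-r)) + 2 * C * (r ^ 3 * Real.exp (-r)) +
      4 * C ^ 2 * (r ^ 4 * Real.exp (-r))) ?_
      (((ig_pow 2).const_mul (1 / 4)).add ((ig_pow 3).const_mul (2 * C)) |>.add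
        ((ig_pow 4).const_mul (4 * C ^ 2))) ?_ ?_
  · rw [integral_const_mul, int_pow 2] at h
    have e : 1 / 4 * ((Nat.factorial 2 : ℕ) : ℝ) = 1 / 2 := by norm_num [Nat.factorial]
    rw [e] at h
    exact h
  · intro m
    have h1 : Dm (s m) = deriv (qm (s m)) := funext fun t => (qm_deriv (hs0 m) t).deriv.symm
    have h2 : Continuous (Dm (s m)) := by
      rw [h1]
      exact ((qm_smooth (hs0 m)).of_le (by simp)).continuous_deriv le_rfl
    exact (by fun_prop : Continuous fun r : ℝ =>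
      r ^ 2 * (2 * r * Dm (s m) (r ^ 2)) ^ 2).aestronglyMeasurable
  · intro m
    filter_upwards [ae_restrict_mem measurableSet_Ioi] with r hr
    have hr0 : 0 < r := hr
    rw [Real.norm_of_nonneg (by positivity)]
    have h3 := Dm_le hC (hs0 m) (hs1 m) hr0
    have h4 : (2 * r * Dm (s m) (r ^ 2)) ^ 2 ≤
        (Real.exp (-(r / 2)) * (1 / 2 + 2 * C * r)) ^ 2 := by
      rw [← sq_abs]
      exact pow_le_pow_left₀ (abs_nonneg _) h3 2
    rw [mul_pow (Real.exp _), exp_half] at h4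
    calc r ^ 2 * (2 * r * Dm (s m) (r ^ 2)) ^ 2
        ≤ r ^ 2 * (Real.exp (-r) * (1 / 2 + 2 * C * r) ^ 2) :=
          mul_le_mul_of_nonneg_left h4 (sq_nonneg _)
      _ = _ := by ring
  · filter_upwards [ae_restrict_mem measurableSet_Ioi] with r hr
    have hr0 : 0 < r := hr
    have := ((Dm_lim r hr0 s hs).pow 2).const_mul (r ^ 2)
    have e : r ^ 2 * (-(1 / 2 * Real.exp (-(r / 2)))) ^ 2 = 1 / 4 * (r ^ 2 * Real.exp (-r)) := by
      rw [← exp_half r]
      generalize Real.exp (-(r / 2)) = a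
      ring
    rw [e] at this
    exact this

/-! ### the kinetic energy -/

lemma pd_int (F : R3 → ℝ) (hf : ContDiff ℝ (⊤ : ℕ∞) F) (hcs : HasCompactSupport F) (i : Fin 3) :
    Integrable (fun y => pd i F y ^ 2) := by
  have hc : Continuous (fun y => pd i F y ^ 2) := by
    unfold pd
    exact ((hf.continuous_fderiv (by simp)).clm_apply continuous_const).pow 2
  have hs : HasCompactSupport (pd i F) := by
    have := hcs.fderiv_apply (𝕜 := ℝ) (Pi.single i 1)
    exact this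
  have hs2 : HasCompactSupport (fun y => pd i F y ^ 2) := by
    have h0 : ((0 : ℝ) ^ 2) = 0 := by norm_num
    exact HasCompactSupport.comp_left (g := fun t : ℝ => t ^ 2) hs h0
  exact hc.integrable_of_hasCompactSupport hs2

lemma kin_rad (q : ℝ → ℝ) (R : ℝ) (hq : ContDiff ℝ (⊤ : ℕ∞) q) (hR : 0 < R)
    (h0 : ∀ t, R ^ 2 ≤ t → q t = 0) :
    ∑ i, ∫ y, pd i (fun y => q (nr y ^ 2)) y ^ 2 =
      vol3 * ∫ r in Ioi (0 : ℝ), r ^ 2 * (2 * r * deriv q (r ^ 2)) ^ 2 := by
  have hf : ContDiff ℝ (⊤ : ℕ∞) (fun y : R3 => q (nr y ^ 2)) := by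
    have e : (fun y : R3 => nr y ^ 2) = fun y => y 0 ^ 2 + y 1 ^ 2 + y 2 ^ 2 := funext nr_sq
    refine hq.comp ?_
    rw [e]
    fun_prop
  have hcs : HasCompactSupport (fun y : R3 => q (nr y ^ 2)) := by
    refine HasCompactSupport.of_support_subset_isCompact (isCompact_closedBall (0 : R3) R) ?_
    intro y hy
    rw [mem_closedBall_zero_iff, pi_norm_le_iff_of_nonneg hR.le]
    intro i
    have h1 : nr y ^ 2 < R ^ 2 := by
      by_contra hc
      exact hy (h0 _ (not_lt.1 hc))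
    have h2 : y i ^ 2 ≤ nr y ^ 2 := by
      rw [nr_sq]
      fin_cases i <;> simp <;> nlinarith [sq_nonneg (y 0), sq_nonneg (y 1), sq_nonneg (y 2)]
    exact abs_le_of_sq_le_sq (h2.trans h1.le) hR.le
  have hI : ∀ i, Integrable (fun y => pd i (fun y => q (nr y ^ 2)) y ^ 2) := fun i =>
    pd_int _ hf hcs i
  rw [← integral_finsetSum _ fun i _ => hI i, ← int_nr]
  refine integral_congr_ae (Eventually.of_forall fun y => ?_)
  simp only
  have hd : HasDerivAt q (deriv q (nr y ^ 2)) (nr y ^ 2) :=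
    (hq.differentiable (by simp) _).hasDerivAt
  simp only [pd_q q _ _ y hd, Fin.sum_univ_three]
  have := nr_sq y
  calc _ = 4 * deriv q (nr y ^ 2) ^ 2 * (y 0 ^ 2 + y 1 ^ 2 + y 2 ^ 2) := by ring
    _ = _ := by rw [← this]; ring

theorem TRO : ST_TRO := by
  intro δ hδ
  set s : ℕ → ℝ := fun m => 1 / ((m : ℝ) + 1) with hsd
  have hs0 : ∀ m, 0 < s m := fun m => by simp only [hsd]; positivity
  have hs1 : ∀ m, s m ≤ 1 := fun m => by
    simp only [hsd]
    rw [div_le_one (by positivity)]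
    have : (0 : ℝ) ≤ m := Nat.cast_nonneg m
    linarith
  have hs : Tendsto s atTop (𝓝 0) := tendsto_one_div_add_atTop_nhds_zero_nat
  have hN := N_lim s hs0 hs
  have hP := P_lim s hs0 hs
  have hK := K_lim s hs0 hs1 hs
  have hE := (hK.sub hP).div hN (by norm_num)
  have hE1 : ∀ᶠ m in atTop, ((∫ r in Ioi (0 : ℝ), r ^ 2 * (2 * r * Dm (s m) (r ^ 2)) ^ 2) -
      ∫ r in Ioi (0 : ℝ), r ^ 2 * (qm (s m) (r ^ 2) ^ 2 / r)) /
      (∫ r in Ioi (0 : ℝ), r ^ 2 * qm (s m) (r ^ 2) ^ 2) < -(1 / 4) + δ :=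
    hE.eventually (gt_mem_nhds (by norm_num; linarith))
  have hN1 : ∀ᶠ m in atTop, 0 < ∫ r in Ioi (0 : ℝ), r ^ 2 * qm (s m) (r ^ 2) ^ 2 :=
    hN.eventually (lt_mem_nhds (by norm_num))
  obtain ⟨m, h1, h2⟩ := (hE1.and hN1).exists
  set N := ∫ r in Ioi (0 : ℝ), r ^ 2 * qm (s m) (r ^ 2) ^ 2 with hNd
  set P := ∫ r in Ioi (0 : ℝ), r ^ 2 * (qm (s m) (r ^ 2) ^ 2 / r) with hPd
  set K := ∫ r in Ioi (0 : ℝ), r ^ 2 * (2 * r * Dm (s m) (r ^ 2)) ^ 2 with hKd
  have hv := vol3_pos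
  set c : ℝ := Real.sqrt (1 / (vol3 * N)) with hc
  have hc2 : c ^ 2 = 1 / (vol3 * N) := Real.sq_sqrt (by positivity)
  have hR : (0 : ℝ) < Real.sqrt (2 / s m) := Real.sqrt_pos.2 (div_pos two_pos (hs0 m))
  have hR2 : Real.sqrt (2 / s m) ^ 2 = 2 / s m := Real.sq_sqrt (div_pos two_pos (hs0 m)).le
  have hq : ContDiff ℝ (⊤ : ℕ∞) (fun t => c * qm (s m) t) := contDiff_const.mul (qm_smooth (hs0 m))
  have hz : ∀ t, Real.sqrt (2 / s m) ^ 2 ≤ t → c * qm (s m) t = 0 := by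
    intro t ht
    rw [hR2, div_le_iff₀ (hs0 m)] at ht
    unfold qm
    rw [Real.smoothTransition.zero_of_nonpos (by linarith)]
    ring
  refine ⟨fun t => c * qm (s m) t, Real.sqrt (2 / s m), hR, hq, hz, ?_, ?_⟩
  · rw [int_nr (fun r => (c * qm (s m) (r ^ 2)) ^ 2)]
    have e : ∀ r : ℝ, r ^ 2 * (c * qm (s m) (r ^ 2)) ^ 2 =
        c ^ 2 * (r ^ 2 * qm (s m) (r ^ 2) ^ 2) := fun r => by ring
    simp only [e]
    rw [integral_const_mul, ← hNd, hc2]
    field_simp
  · rw [kin_rad _ _ hq hR hz, int_nr (fun r => (c * qm (s m) (r ^ 2)) ^ 2 / r)]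
    have e1 : ∀ r : ℝ, r ^ 2 * ((c * qm (s m) (r ^ 2)) ^ 2 / r) =
        c ^ 2 * (r ^ 2 * (qm (s m) (r ^ 2) ^ 2 / r)) := fun r => by ring
    have e2 : ∀ t, deriv (fun t => c * qm (s m) t) t = c * Dm (s m) t := fun t =>
      ((qm_deriv (hs0 m) t).const_mul c).deriv
    have e3 : ∀ r : ℝ, r ^ 2 * (2 * r * (c * Dm (s m) (r ^ 2))) ^ 2 =
        c ^ 2 * (r ^ 2 * (2 * r * Dm (s m) (r ^ 2)) ^ 2) := fun r => by ring
    simp only [e1, e2, e3]
    rw [integral_const_mul, integral_const_mul, ← hPd, ← hKd, hc2]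
    refine (le_of_eq ?_).trans h1.le
    field_simp

end Pool.Agent.Helper85.HY
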